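import Pool.Agent.T2H72.DC.All

/-!
# A separable disjointly homogeneous Banach lattice which is not disjointly complemented

(MP_eafca2_an, Q1: the answer is no.)

The nodes of level `n` are finitely many; a node of level `m` is the same thing as a family, indexed by `j < m`, of
a node of level `j` (the node to which it points) and a budget in `{0, …, j}`. A finite set of nodes of different levels is
coherent if every node of it points to all the previous ones and if, for every node, the budgets of the later nodes
at its level are strictly decreasing. Let `‖f‖_*` be the supremum of `(∑_i (∑_{F_i} |f|)^{4/3})^{3/4}` over the successive
coherent sets `F_1 < F_2 < …`, and let `E` be the closure of the finitely supported functions for the norm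
`‖u‖ = sup {∑ f |u| : f ≥ 0, ‖f‖_* ≤ 1}`. Every normalized disjoint sequence of `E` has a subsequence equivalent to the unit
vector basis of `ℓ_4` (blocks satisfy an upper `4`-estimate; for the lower estimate one uses that, for any
probabilities on the levels, after passing to a subsequence the top of a random coherent chain of length `J` in given levels has
probability at most `2/(J-2)!`). The uniform averages of the levels have no subsequence with complemented span: a projection
would give sets of nodes of density bounded below in each level which contain no long coherent sets.
-/

set_option autoImplicit false

open Pool.Agent.T2H72.DC TopologicalSpace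

namespace Pool.Agent.Results.MP_eafca2_an.HomogeneousNotComplemented

/-- **Negative answer to Q1.** There is a separable real Banach lattice `E` which is disjointly homogeneous (indeed
`4`-DH) but not disjointly complemented: there is a normalized disjoint sequence in `E` none of whose subsequences has
complemented closed span. -/
theorem result :
    ∃ (E : Type) (_ : NormedAddCommGroup E) (_ : Lattice E) (_ : HasSolidNorm E)
      (_ : IsOrderedAddMonoid E) (_ : NormedSpace ℝ E) (_ : PosSMulMono ℝ E),
      CompleteSpace E ∧ SeparableSpace E ∧ IsDH E ∧ IsFourDH E ∧ ¬ IsDC E ∧
      ∃ x : ℕ → E, DisjSeq x ∧ (∀ n, ‖x n‖ = 1) ∧
        ∀ φ : ℕ → ℕ, StrictMono φ → ¬ ComplSpan (x ∘ φ) :=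
  fin_all

end Pool.Agent.Results.MP_eafca2_an.HomogeneousNotComplemented
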